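import Pool.Agent.L0h82.GT.Stm

/-!
`NoC3` does not depend on the five points.
-/

set_option autoImplicit false

namespace Pool.Agent.L0h65.GT

open Pool.Agent.L0h82.GT

universe u

section

variable {X : Type u} (G : Subgroup (Equiv.Perm X))

/-- No `3`-cycle is induced on the set `Y` of five points. -/
def PS (Y : Finset X) : Prop := ∀ a ∈ Y, ∀ b ∈ Y, ∀ c ∈ Y, ∀ d ∈ Y, ∀ e ∈ Y,
  [a, b, c, d, e].Nodup → ¬ C3 G a b c d e

variable {G} [DecidableEq X]

theorem ps_of {w : ℕ → X} (h : NoC3 G w) : PS G ((Finset.range 5).image w) := by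
  intro a ha b hb c hc d hd e he hn
  simp only [Finset.mem_image, Finset.mem_range] at ha hb hc hd he
  obtain ⟨i, hi, rfl⟩ := ha
  obtain ⟨j, hj, rfl⟩ := hb
  obtain ⟨k, hk, rfl⟩ := hc
  obtain ⟨l, hl, rfl⟩ := hd
  obtain ⟨m, hm, rfl⟩ := he
  have h1 : (List.map w [i, j, k, l, m]).Nodup := hn
  exact h i j k l m hi hj hk hl hm (List.Nodup.of_map w h1)

theorem of_ps {v : ℕ → X} (hv : Set.InjOn v (Set.Iio 5))
    (h : PS G ((Finset.range 5).image v)) : NoC3 G v := by
  intro a b c d e ha hb hc hd he hn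
  have hm : ∀ i < 5, v i ∈ (Finset.range 5).image v := fun i hi =>
    Finset.mem_image_of_mem v (Finset.mem_range.2 hi)
  refine h _ (hm a ha) _ (hm b hb) _ (hm c hc) _ (hm d hd) _ (hm e he) ?_
  have h5 : ∀ z ∈ [a, b, c, d, e], z < 5 := by
    intro z hz
    simp only [List.mem_cons, List.not_mem_nil, or_false] at hz
    rcases hz with rfl | rfl | rfl | rfl | rfl <;> assumption
  have h1 : (List.map v [a, b, c, d, e]).Nodup := by
    refine List.Nodup.map_on ?_ hn
    intro x hx y hy hxy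
    exact hv (h5 x hx) (h5 y hy) hxy
  exact h1

theorem ps_map {Y : Finset X} {g : Equiv.Perm X} (hg : g ∈ G) (h : PS G Y) :
    PS G (Y.image g) := by
  intro a ha b hb c hc d hd e he hn hC
  obtain ⟨k, hk, h1, h2, h3, h4, h5⟩ := hC
  simp only [Finset.mem_image] at ha hb hc hd he
  obtain ⟨a, ha, rfl⟩ := ha
  obtain ⟨b, hb, rfl⟩ := hb
  obtain ⟨c, hc, rfl⟩ := hc
  obtain ⟨d, hd, rfl⟩ := hd
  obtain ⟨e, he, rfl⟩ := he
  have hn' : (List.map g [a, b, c, d, e]).Nodup := hn
  refine h a ha b hb c hc d hd e he (List.Nodup.of_map g hn')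
    ⟨g⁻¹ * k * g, G.mul_mem (G.mul_mem (G.inv_mem hg) hk) hg, ?_, ?_, ?_, ?_, ?_⟩
  · simp [Equiv.Perm.mul_apply, h1]
  · simp [Equiv.Perm.mul_apply, h2]
  · simp [Equiv.Perm.mul_apply, h3]
  · simp [Equiv.Perm.mul_apply, h4]
  · simp [Equiv.Perm.mul_apply, h5]

theorem trans6 (hG : Gen G) {Z : Finset X} (hZ : Z.card = 6) {x y : X} (hx : x ∈ Z)
    (hy : y ∈ Z) : ∃ g ∈ G, (∀ z, g z ∈ Z ↔ z ∈ Z) ∧ g x = y := by
  classical
  by_contra hcon
  have hxy : x ≠ y := by
    rintro rfl
    exact hcon ⟨1, G.one_mem, fun z => Iff.rfl, rfl⟩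
  set O : Finset X := Z.filter (fun z => ∃ g ∈ G, (∀ z, g z ∈ Z ↔ z ∈ Z) ∧ g x = z) with hO
  have hxO : x ∈ O := Finset.mem_filter.2 ⟨hx, 1, G.one_mem, fun z => Iff.rfl, rfl⟩
  have hyO : y ∉ O := fun h => hcon (Finset.mem_filter.1 h).2
  have key : ∀ A B : Finset X, A.card = 3 → B.card = 3 → (∀ z, z ∈ Z ↔ z ∈ A ∨ z ∈ B) →
      (O ∩ A).card ≤ (O ∩ B).card := by
    intro A B hA hB hAB
    obtain ⟨g, hg, h1, h2⟩ := hG A B hA hB
    have himg : Z.image g = Z := by
      refine Finset.eq_of_subset_of_card_le ?_ ?_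
      · intro z hz
        obtain ⟨z', hz', rfl⟩ := Finset.mem_image.1 hz
        rw [hAB]
        rcases (hAB z').1 hz' with h | h
        · exact Or.inr (h1 _ h)
        · exact Or.inl (h2 _ h)
      · rw [Finset.card_image_of_injective _ g.injective]
    have hst : ∀ z, g z ∈ Z ↔ z ∈ Z := by
      intro z
      constructor
      · intro h
        rw [← himg] at h
        obtain ⟨z', hz', h'⟩ := Finset.mem_image.1 h
        rwa [← g.injective h']
      · intro h
        rw [← himg]
        exact Finset.mem_image_of_mem _ h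
    refine Finset.card_le_card_of_injOn g ?_ g.injective.injOn
    intro z hz
    obtain ⟨hz1, hz2⟩ := Finset.mem_inter.1 (Finset.mem_coe.1 hz)
    obtain ⟨hz3, k, hk, hk1, hk2⟩ := Finset.mem_filter.1 hz1
    refine Finset.mem_coe.2 (Finset.mem_inter.2 ⟨Finset.mem_filter.2
      ⟨(hst z).2 hz3, g * k, G.mul_mem hg hk, ?_, ?_⟩, h1 z hz2⟩)
    · intro z'
      rw [Equiv.Perm.mul_apply, hst, hk1]
    · rw [Equiv.Perm.mul_apply, hk2]
  have hc4 : ((Z.erase x).erase y).card = 4 := by
    rw [Finset.card_erase_of_mem (Finset.mem_erase.2 ⟨hxy.symm, hy⟩),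
      Finset.card_erase_of_mem hx, hZ]
  obtain ⟨T, hT, hTc⟩ := Finset.exists_subset_card_eq
    (show 2 ≤ ((Z.erase x).erase y).card by omega)
  obtain ⟨T', hT'⟩ : ∃ T' : Finset X, T' = ((Z.erase x).erase y) \ T := ⟨_, rfl⟩
  have hT'c : T'.card = 2 := by
    rw [hT', Finset.card_sdiff_of_subset hT]
    omega
  have hTm : ∀ z ∈ T, z ≠ y ∧ z ≠ x ∧ z ∈ Z := fun z hz => by
    have h1 := hT hz
    rw [Finset.mem_erase, Finset.mem_erase] at h1
    exact h1
  have hT'm : ∀ z, z ∈ T' ↔ (z ≠ y ∧ z ≠ x ∧ z ∈ Z) ∧ z ∉ T := fun z => by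
    rw [hT', Finset.mem_sdiff, Finset.mem_erase, Finset.mem_erase]
  have hxT : x ∉ T := fun h => (hTm x h).2.1 rfl
  have hyT : y ∉ T := fun h => (hTm y h).1 rfl
  have hxT' : x ∉ T' := fun h => ((hT'm x).1 h).1.2.1 rfl
  have hyT' : y ∉ T' := fun h => ((hT'm y).1 h).1.1 rfl
  have e1 := key (insert x T) (insert y T') (by rw [Finset.card_insert_of_notMem hxT, hTc])
    (by rw [Finset.card_insert_of_notMem hyT', hT'c]) (by
      intro z
      rw [Finset.mem_insert, Finset.mem_insert, hT'm]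
      constructor
      · intro hz
        by_cases h1 : z = x
        · exact Or.inl (Or.inl h1)
        by_cases h2 : z = y
        · exact Or.inr (Or.inl h2)
        by_cases h3 : z ∈ T
        · exact Or.inl (Or.inr h3)
        · exact Or.inr (Or.inr ⟨⟨h2, h1, hz⟩, h3⟩)
      · rintro ((rfl | h) | (rfl | h))
        · exact hx
        · exact (hTm z h).2.2
        · exact hy
        · exact h.1.2.2)
  have e2 := key (insert x T') (insert y T) (by rw [Finset.card_insert_of_notMem hxT', hT'c])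
    (by rw [Finset.card_insert_of_notMem hyT, hTc]) (by
      intro z
      rw [Finset.mem_insert, Finset.mem_insert, hT'm]
      constructor
      · intro hz
        by_cases h1 : z = x
        · exact Or.inl (Or.inl h1)
        by_cases h2 : z = y
        · exact Or.inr (Or.inl h2)
        by_cases h3 : z ∈ T
        · exact Or.inr (Or.inr h3)
        · exact Or.inl (Or.inr ⟨⟨h2, h1, hz⟩, h3⟩)
      · rintro ((rfl | h) | (rfl | h))
        · exact hx
        · exact h.1.2.2
        · exact hy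
        · exact (hTm z h).2.2)
  rw [Finset.inter_insert_of_mem hxO, Finset.inter_insert_of_notMem hyO,
    Finset.card_insert_of_notMem (fun h => hxT (Finset.mem_inter.1 h).2)] at e1
  rw [Finset.inter_insert_of_mem hxO, Finset.inter_insert_of_notMem hyO,
    Finset.card_insert_of_notMem (fun h => hxT' (Finset.mem_inter.1 h).2)] at e2
  omega

theorem ps_swap (hG : Gen G) {Z : Finset X} (hZ : Z.card = 6) {x y : X} (hx : x ∈ Z)
    (hy : y ∈ Z) (h : PS G (Z.erase x)) : PS G (Z.erase y) := by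
  obtain ⟨g, hg, hst, hgx⟩ := trans6 hG hZ hx hy
  have h1 : (Z.erase x).image g = Z.erase y := by
    ext z
    simp only [Finset.mem_image, Finset.mem_erase]
    constructor
    · rintro ⟨z', ⟨h1, h2⟩, rfl⟩
      exact ⟨fun h => h1 (g.injective (h.trans hgx.symm)), (hst z').2 h2⟩
    · rintro ⟨h1, h2⟩
      refine ⟨g⁻¹ z, ⟨?_, ?_⟩, by simp⟩
      · intro h
        apply h1
        rw [← hgx, ← h]
        simp
      · rw [← hst]
        simpa using h2
  rw [← h1]
  exact ps_map hg h

theorem chain (hG : Gen G) {Y' : Finset X} (hY' : Y'.card = 5) :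
    ∀ (n : ℕ) (Y : Finset X), Y.card = 5 → (Y' \ Y).card = n → PS G Y → PS G Y' := by
  intro n
  induction n with
  | zero =>
    intro Y hY h0 h
    have h1 : Y' ⊆ Y := Finset.sdiff_eq_empty_iff_subset.1 (Finset.card_eq_zero.1 h0)
    rwa [Finset.eq_of_subset_of_card_le h1 (by omega)]
  | succ n ih =>
    intro Y hY hn h
    obtain ⟨b, hb⟩ := Finset.card_pos.1 (show 0 < (Y' \ Y).card by omega)
    have hn' : (Y \ Y').card = n + 1 := by
      rw [← hn]
      exact Finset.card_sdiff_comm (by omega)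
    obtain ⟨a, ha⟩ := Finset.card_pos.1 (show 0 < (Y \ Y').card by omega)
    obtain ⟨hb1, hb2⟩ := Finset.mem_sdiff.1 hb
    obtain ⟨ha1, ha2⟩ := Finset.mem_sdiff.1 ha
    have hZ : (insert b Y).card = 6 := by rw [Finset.card_insert_of_notMem hb2, hY]
    have h1 : PS G ((insert b Y).erase a) := by
      refine ps_swap hG hZ (Finset.mem_insert_self b Y) (Finset.mem_insert_of_mem ha1) ?_
      rwa [Finset.erase_insert hb2]
    refine ih ((insert b Y).erase a) ?_ ?_ h1
    · rw [Finset.card_erase_of_mem (Finset.mem_insert_of_mem ha1), hZ]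
    · have h2 : Y' \ (insert b Y).erase a = (Y' \ Y).erase b := by
        ext z
        simp only [Finset.mem_sdiff, Finset.mem_erase, Finset.mem_insert]
        constructor
        · rintro ⟨h3, h4⟩
          have hza : z ≠ a := fun h => ha2 (h ▸ h3)
          refine ⟨fun h => h4 ⟨hza, Or.inl h⟩, h3, fun h => h4 ⟨hza, Or.inr h⟩⟩
        · rintro ⟨h3, h4, h5⟩
          refine ⟨h4, fun h => ?_⟩
          rcases h.2 with h6 | h6
          · exact h3 h6
          · exact h5 h6
      rw [h2, Finset.card_erase_of_mem hb, hn]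
      omega

end

theorem t_HOM : S_HOM.{u} := by
  intro X G w v hG hw hv h
  classical
  have hcard : ∀ w : ℕ → X, Set.InjOn w (Set.Iio 5) → ((Finset.range 5).image w).card = 5 := by
    intro w hw
    rw [Finset.card_image_of_injOn, Finset.card_range]
    intro i hi j hj hij
    exact hw (Finset.mem_range.1 (Finset.mem_coe.1 hi)) (Finset.mem_range.1 (Finset.mem_coe.1 hj)) hij
  exact of_ps hv (chain hG (hcard v hv) _ _ (hcard w hw) rfl (ps_of h))

end Pool.Agent.L0h65.GT
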